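import Pool.Agent.H44.GW5

open Pool.Agent.H44.GW

namespace Pool.Agent.Results.MP_46e535_pr.BothInfinite

/-- An irreducible walk with infinitely many extinction vectors and uncountably many other fixed
points. -/
theorem result : ∃ μ : ℕ × ℕ → PMF (ℕ × ℕ →₀ ℕ), Irred μ ∧
    (Set.range (qExt μ)).Infinite ∧ ¬(Fix μ \ Set.range (qExt μ)).Countable :=
  ⟨BR.μ, BR_irred, BR_infinite, diff_uncountable BR_card BR_countable⟩

end Pool.Agent.Results.MP_46e535_pr.BothInfinite
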